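import Pool.Agent.Results.MP_5e9a16_gt.ToddSubgroup

/-!
# Weakly pseudocompact spaces and Todd pseudocompleteness
-/

namespace Pool.Agent.R165.WPC

open Set Topology Filter TopologicalSpace
open Pool.Agent.Results.MP_5e9a16_gt.ToddSubgroup

universe u

/-- Every continuous real-valued function is bounded. -/
def Pseudocompact (X : Type*) [TopologicalSpace X] : Prop :=
  ∀ f : X → ℝ, Continuous f → ∃ C : ℝ, ∀ x, |f x| ≤ C

/-- `X` is `G_δ`-dense in one of its Hausdorff compactifications. -/
def WeaklyPseudocompact (X : Type u) [TopologicalSpace X] : Prop :=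
  ∃ (Y : Type u) (_ : TopologicalSpace Y) (_ : CompactSpace Y) (_ : T2Space Y) (i : X → Y),
    IsEmbedding i ∧ DenseRange i ∧ ∀ S : Set Y, IsGδ S → S.Nonempty → (S ∩ range i).Nonempty

/-- In a compact Hausdorff space there are closed `G_δ` neighbourhoods of a point in every open
set. -/
theorem exists_closed_gdelta {Y : Type*} [TopologicalSpace Y] [CompactSpace Y] [T2Space Y]
    {O : Set Y} (hO : IsOpen O) {y : Y} (hy : y ∈ O) :
    ∃ Z : Set Y, IsClosed Z ∧ IsGδ Z ∧ Z ⊆ O ∧ y ∈ interior Z := by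
  obtain ⟨f, hf0, hf1, -⟩ := exists_continuous_zero_one_of_isClosed
    (isClosed_singleton (x := y)) hO.isClosed_compl (by
      rw [Set.disjoint_singleton_left]
      exact fun h => h hy)
  refine ⟨f ⁻¹' (Iic (1 / 2)), isClosed_Iic.preimage f.continuous, ?_, ?_, ?_⟩
  · have h1 : f ⁻¹' (Iic (1 / 2 : ℝ)) = ⋂ n : ℕ, f ⁻¹' (Iio (1 / 2 + 1 / ((n : ℝ) + 1))) := by
      ext x
      simp only [mem_preimage, mem_Iic, mem_iInter, mem_Iio]
      constructor
      · intro h n
        have : (0 : ℝ) < 1 / ((n : ℝ) + 1) := by positivity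
        linarith
      · intro h
        by_contra hlt
        push Not at hlt
        obtain ⟨n, hn⟩ := exists_nat_one_div_lt (sub_pos.mpr hlt)
        have := h n
        linarith
    rw [h1]
    exact .iInter_of_isOpen fun n => isOpen_Iio.preimage f.continuous
  · intro x hx
    by_contra hxO
    have h1 : f x = 1 := hf1 hxO
    rw [mem_preimage, mem_Iic, h1] at hx
    norm_num at hx
  · refine interior_mono (s := f ⁻¹' (Iio (1 / 2))) (preimage_mono Iio_subset_Iic_self) ?_
    rw [(isOpen_Iio.preimage f.continuous).interior_eq, mem_preimage, mem_Iio]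
    have h1 : f y = 0 := hf0 (mem_singleton y)
    rw [h1]
    norm_num

theorem todd_of_wpc {A : Type u} [TopologicalSpace A] (hA : WeaklyPseudocompact A)
    {X : Type*} [TopologicalSpace X] {e : X → A} (he : IsOpenEmbedding e) :
    ToddPseudocomplete X := by
  obtain ⟨Y, _, _, _, i, hi, hid, hG⟩ := hA
  obtain ⟨OY, hOY, hOYe⟩ := hi.isInducing.isOpen_iff.mp he.isOpen_range
  set j : X → Y := i ∘ e with hj
  have hje : IsEmbedding j := hi.comp he.isEmbedding
  have hmem : ∀ a : A, i a ∈ OY → ∃ x, e x = a := by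
    intro a ha
    have : a ∈ i ⁻¹' OY := ha
    rw [hOYe] at this
    exact this
  have hjO : ∀ x, j x ∈ OY := by
    intro x
    have : e x ∈ i ⁻¹' OY := by
      rw [hOYe]
      exact mem_range_self x
    exact this
  refine ⟨fun _ => {B : Set X | ∃ Z : Set Y, IsClosed Z ∧ IsGδ Z ∧ Z ⊆ OY ∧
    (interior Z).Nonempty ∧ B = j ⁻¹' Z}, fun _ => ⟨?_, ?_⟩, ?_⟩
  · rintro B ⟨Z, hZc, hZg, hZO, hZn, rfl⟩
    obtain ⟨a, ha⟩ := hid.exists_mem_open isOpen_interior hZn
    obtain ⟨x, rfl⟩ := hmem a (hZO (interior_subset ha))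
    exact ⟨x, preimage_interior_subset_interior_preimage hje.continuous ha⟩
  · intro O hO ⟨x, hx⟩
    obtain ⟨O', hO', rfl⟩ := hje.isInducing.isOpen_iff.mp hO
    obtain ⟨Z, hZc, hZg, hZO, hZi⟩ := exists_closed_gdelta (hO'.inter hOY)
      (show j x ∈ O' ∩ OY from ⟨hx, hjO x⟩)
    exact ⟨j ⁻¹' Z, ⟨Z, hZc, hZg, hZO.trans inter_subset_right, ⟨_, hZi⟩, rfl⟩,
      preimage_mono (hZO.trans inter_subset_left)⟩
  · intro B hB hBn
    choose Z hZc hZg hZO hZn hBZ using hB
    have hint : ∀ n, (interior (B n)).Nonempty := by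
      intro n
      obtain ⟨a, ha⟩ := hid.exists_mem_open isOpen_interior (hZn n)
      obtain ⟨x, rfl⟩ := hmem a (hZO n (interior_subset ha))
      rw [hBZ n]
      exact ⟨x, preimage_interior_subset_interior_preimage hje.continuous ha⟩
    have hanti : Antitone B := antitone_nat_of_succ_le fun n =>
      subset_closure.trans ((hBn n).trans interior_subset)
    have hne : (⋂ n, ⋂ k ∈ Finset.range (n + 1), Z k).Nonempty := by
      refine IsCompact.nonempty_iInter_of_sequence_nonempty_isCompact_isClosed _ ?_ ?_ ?_ ?_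
      · intro n y hy
        simp only [Finset.mem_range, mem_iInter] at hy ⊢
        exact fun k hk => hy k (by omega)
      · intro n
        obtain ⟨x, hx⟩ := hint n
        refine ⟨j x, ?_⟩
        simp only [Finset.mem_range, mem_iInter]
        intro k hk
        have h1 : x ∈ B k := hanti (by omega) (interior_subset hx)
        rw [hBZ k] at h1
        exact h1
      · exact (isClosed_biInter fun k _ => hZc k).isCompact
      · exact fun n => isClosed_biInter fun k _ => hZc k
    obtain ⟨y, hy⟩ := hne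
    have hy' : y ∈ ⋂ n, Z n := by
      simp only [Finset.mem_range, mem_iInter] at hy ⊢
      exact fun n => hy n n (by omega)
    obtain ⟨y', hy1, ⟨a, rfl⟩⟩ := hG (⋂ n, Z n) (.iInter hZg) ⟨y, hy'⟩
    rw [mem_iInter] at hy1
    obtain ⟨x, rfl⟩ := hmem a (hZO 0 (hy1 0))
    refine ⟨x, ?_⟩
    rw [mem_iInter]
    intro n
    rw [hBZ n]
    exact hy1 n

end Pool.Agent.R165.WPC
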