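import Pool.Agent.R165.WPC.A

/-!
# The Kakutani-Kodaira theorem for sigma-compact locally compact groups
-/

namespace Pool.Agent.R165.WPC

open Set Topology Filter TopologicalSpace

section KK

variable {H : Type*} [Group H] [TopologicalSpace H] [IsTopologicalGroup H]
  [LocallyCompactSpace H] [T2Space H] [SigmaCompactSpace H]

omit [SigmaCompactSpace H] in
/-- One step of the construction of small compact neighbourhoods. -/
theorem kk_step {V O K : Set H} (hV : V ∈ 𝓝 (1 : H)) (hO : O ∈ 𝓝 (1 : H)) (hK : IsCompact K) :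
    ∃ V' : Set H, V' ∈ 𝓝 (1 : H) ∧ IsCompact V' ∧ V' ⊆ V ∧ (∀ x ∈ V', x⁻¹ ∈ V') ∧
      (∀ x ∈ V', ∀ y ∈ V', x * y ∈ V ∩ O) ∧ ∀ g ∈ K, ∀ x ∈ V', g * x * g⁻¹ ∈ V := by
  have h1 : {x : H | ∀ g ∈ K, g * x * g⁻¹ ∈ V} ∈ 𝓝 (1 : H) := by
    refine hK.eventually_forall_of_forall_eventually (x₀ := (1 : H))
      (P := fun x g => g * x * g⁻¹ ∈ V) ?_
    intro g hg
    have hc : Continuous fun z : H × H => z.2 * z.1 * z.2⁻¹ := by fun_prop
    have h2 := hc.tendsto (1, g)
    simp only [mul_one, mul_inv_cancel] at h2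
    exact h2 hV
  obtain ⟨W, hWo, hW1, hWW⟩ := exists_open_nhds_one_mul_subset (inter_mem hV hO)
  obtain ⟨C, hC, hCs, hCc⟩ := local_compact_nhds (x := (1 : H))
    (inter_mem (inter_mem (hWo.mem_nhds hW1) h1) hV)
  refine ⟨C ∩ C⁻¹, inter_mem hC (inv_mem_nhds_one H hC), hCc.inter hCc.inv, ?_, ?_, ?_, ?_⟩
  · exact inter_subset_left.trans (hCs.trans inter_subset_right)
  · rintro x ⟨hx1, hx2⟩
    exact ⟨hx2, by simpa using hx1⟩
  · rintro x ⟨hx1, hx2⟩ y ⟨hy1, hy2⟩
    exact hWW (mul_mem_mul (hCs hx1).1.1 (hCs hy1).1.1)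
  · rintro g hg x ⟨hx1, hx2⟩
    exact (hCs hx1).1.2 g hg

/-- Kakutani-Kodaira: a normal compact subgroup inside countably many given neighbourhoods of
the identity, with first countable quotient. -/
theorem kakutani_kodaira (O : ℕ → Set H) (hO : ∀ n, O n ∈ 𝓝 (1 : H)) :
    ∃ (N : Subgroup H) (_ : N.Normal), IsClosed (N : Set H) ∧ (∀ n, (N : Set H) ⊆ O n) ∧
      (𝓝 (1 : H ⧸ N)).IsCountablyGenerated := by
  choose! S hS1 hS2 hS3 hS4 hS5 hS6 using fun (V : Set H) (n : ℕ) (hV : V ∈ 𝓝 (1 : H)) =>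
    kk_step hV (hO n) (isCompact_compactCovering H n)
  obtain ⟨C, hCc, hC⟩ := exists_compact_mem_nhds (1 : H)
  let V : ℕ → Set H := fun n => Nat.rec C (fun n V => S V n) n
  have hVn : ∀ n, V n ∈ 𝓝 (1 : H) := by
    intro n
    induction n with
    | zero => exact hC
    | succ n ih => exact hS1 _ _ ih
  have hVc : ∀ n, IsCompact (V n) := by
    intro n
    cases n with
    | zero => exact hCc
    | succ n => exact hS2 _ _ (hVn n)
  have hVs : ∀ n, V (n + 1) ⊆ V n := fun n => hS3 _ _ (hVn n)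
  have hVi : ∀ n, ∀ x ∈ V (n + 1), x⁻¹ ∈ V (n + 1) := fun n => hS4 _ _ (hVn n)
  have hVm : ∀ n, ∀ x ∈ V (n + 1), ∀ y ∈ V (n + 1), x * y ∈ V n ∩ O n :=
    fun n => hS5 _ _ (hVn n)
  have hVk : ∀ n, ∀ g ∈ compactCovering H n, ∀ x ∈ V (n + 1), g * x * g⁻¹ ∈ V n :=
    fun n => hS6 _ _ (hVn n)
  have hanti : Antitone V := antitone_nat_of_succ_le hVs
  let N : Subgroup H :=
    { carrier := ⋂ n, V n
      mul_mem' := by
        intro a b ha hb
        rw [mem_iInter] at ha hb ⊢
        exact fun n => (hVm n a (ha (n + 1)) b (hb (n + 1))).1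
      one_mem' := by
        rw [mem_iInter]
        exact fun n => mem_of_mem_nhds (hVn n)
      inv_mem' := by
        intro a ha
        rw [mem_iInter] at ha ⊢
        exact fun n => hVs n (hVi n a (ha (n + 1))) }
  have hN : (N : Set H) = ⋂ n, V n := rfl
  have hNn : N.Normal := by
    refine ⟨fun x hx g => ?_⟩
    have hx' : x ∈ ⋂ n, V n := hx
    rw [mem_iInter] at hx'
    obtain ⟨m, hm⟩ := exists_mem_compactCovering g
    change g * x * g⁻¹ ∈ ⋂ n, V n
    rw [mem_iInter]
    intro n
    have h1 : g ∈ compactCovering H (max n m) := compactCovering_subset H (le_max_right n m) hm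
    exact hanti (le_max_left n m) (hVk _ g h1 x (hx' (max n m + 1)))
  refine ⟨N, hNn, ?_, ?_, ?_⟩
  · rw [hN]
    exact isClosed_iInter fun n => (hVc n).isClosed
  · intro n x hx
    have hx' : x ∈ ⋂ n, V n := hx
    rw [mem_iInter] at hx'
    have := hVm n x (hx' (n + 1)) 1 (mem_of_mem_nhds (hVn (n + 1)))
    rw [mul_one] at this
    exact this.2
  · have hb : (𝓝 (1 : H ⧸ N)).HasBasis (fun _ : ℕ => True)
        fun n => (QuotientGroup.mk : H → H ⧸ N) '' V n := by
      refine ⟨fun t => ⟨fun ht => ?_, ?_⟩⟩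
      · obtain ⟨n, hn⟩ := exists_subset_nhds_of_isCompact' (V := V)
          (U := (QuotientGroup.mk : H → H ⧸ N) ⁻¹' t) hanti.directed_ge hVc
          (fun n => (hVc n).isClosed) (by
            intro x hx
            have hx1 : (QuotientGroup.mk x : H ⧸ N) = 1 := by
              rw [QuotientGroup.eq_one_iff]
              exact hx
            have h2 : ContinuousAt (QuotientGroup.mk : H → H ⧸ N) x :=
              QuotientGroup.continuous_mk.continuousAt
            rw [← hx1] at ht
            exact h2 ht)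
        exact ⟨n, trivial, image_subset_iff.mpr hn⟩
      · rintro ⟨n, -, hn⟩
        refine mem_of_superset ?_ hn
        have := (QuotientGroup.isOpenMap_coe (N := N)).image_mem_nhds (hVn n)
        exact this
    exact hb.isCountablyGenerated

end KK

/-- A Hausdorff topological group with countably generated neighbourhood filter of the identity is
metrizable. -/
theorem metrizable_of_countable {M : Type*} [Group M] [TopologicalSpace M] [IsTopologicalGroup M]
    [T2Space M] (h : (𝓝 (1 : M)).IsCountablyGenerated) : MetrizableSpace M := by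
  let _ : UniformSpace M := IsTopologicalGroup.rightUniformSpace M
  have hu : (uniformity M).IsCountablyGenerated := by
    rw [uniformity_eq_comap_nhds_one' M]
    infer_instance
  exact UniformSpace.metrizableSpace

end Pool.Agent.R165.WPC
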