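import Pool.Agent.R165.WPC.B

/-!
# Dense subgroups with a Todd pseudocomplete open subspace are locally pseudocompact
-/

namespace Pool.Agent.R165.WPC

open Set Topology Filter TopologicalSpace
open Pool.Agent.Results.MP_5e9a16_gt.ToddSubgroup

/-- A dense subgroup which is comeager in a non-empty open set of a Baire group is everything. -/
theorem subgroup_eq_top {M : Type*} [Group M] [TopologicalSpace M] [IsTopologicalGroup M]
    [BaireSpace M] (P : Subgroup M) (hPd : Dense (P : Set M)) {V : Set M} (hV : IsOpen V)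
    (hVn : V.Nonempty) (U : ℕ → Set M) (hU : ∀ n, IsOpen (U n)) (hUV : ∀ n, V ⊆ closure (U n))
    (hUP : V ∩ (⋂ n, U n) ⊆ P) : P = ⊤ := by
  obtain ⟨m0, hm0⟩ := hVn
  have hop : ∀ m : M, m * m0 ∈ V → m ∈ P := by
    intro m hm
    set D : ℕ → Set M := fun n => U n ∪ (closure V)ᶜ with hD
    have hDo : ∀ n, IsOpen (D n) := fun n => (hU n).union isClosed_closure.isOpen_compl
    have hDd : ∀ n, Dense (D n) := by
      intro n x
      rw [hD]
      simp only [closure_union]
      by_cases hx : x ∈ closure (closure V)ᶜ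
      · exact Or.inr hx
      · left
        have h1 : x ∈ closure V := by
          by_contra h2
          exact hx (subset_closure h2)
        exact closure_minimal (hUV n) isClosed_closure h1
    have hDo' : ∀ n, IsOpen ((fun x => m⁻¹ * x) ⁻¹' D n) := fun n =>
      (hDo n).preimage (continuous_const_mul _)
    have hDd' : ∀ n, Dense ((fun x => m⁻¹ * x) ⁻¹' D n) := fun n =>
      (hDd n).preimage (isOpenMap_mul_left m⁻¹)
    have h1 : Dense (⋂ n, D n ∩ ((fun x => m⁻¹ * x) ⁻¹' D n)) :=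
      dense_iInter_of_isOpen (fun n => (hDo n).inter (hDo' n)) fun n =>
        (hDd n).inter_of_isOpen_left (hDd' n) (hDo n)
    obtain ⟨p, hp1, hp2⟩ := h1.inter_open_nonempty (V ∩ ((fun x => m⁻¹ * x) ⁻¹' V))
      (hV.inter (hV.preimage (continuous_const_mul _)))
      ⟨m * m0, hm, by simpa using hm0⟩
    rw [mem_iInter] at hp2
    have key : ∀ q : M, q ∈ V → (∀ n, q ∈ D n) → q ∈ P := by
      intro q hq hqD
      refine hUP ⟨hq, ?_⟩
      rw [mem_iInter]
      intro n
      rcases hqD n with h | h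
      · exact h
      · exact absurd (subset_closure hq) h
    have h3 : p ∈ P := key p hp1.1 fun n => (hp2 n).1
    have h4 : m⁻¹ * p ∈ P := key _ hp1.2 fun n => (hp2 n).2
    have h5 := P.mul_mem h3 (P.inv_mem h4)
    simpa using h5
  have hPo : IsOpen (P : Set M) := by
    refine P.isOpen_of_mem_nhds (g := 1) ?_
    refine mem_of_superset (x := (fun m : M => m * m0) ⁻¹' V) ?_ fun m hm => hop m hm
    refine (continuous_mul_const m0).continuousAt.preimage_mem_nhds ?_
    simp only [one_mul]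
    exact hV.mem_nhds hm0
  have hPc : IsClosed (P : Set M) := P.isClosed_of_isOpen hPo
  rw [← Subgroup.coe_eq_univ, ← hPc.closure_eq, hPd.closure_eq]

section Main

variable {G H : Type*} [Group G] [TopologicalSpace G] [IsTopologicalGroup G]
  [Group H] [TopologicalSpace H] [IsTopologicalGroup H]
  [LocallyCompactSpace H] [T2Space H]

omit [IsTopologicalGroup G] [T2Space H] in
/-- Every coset of `N` meets the dense subgroup. -/
theorem surj_quotient {ι : G →* H} (hι : IsEmbedding ι) (hd : DenseRange ι)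
    {X : Set G} (hX : IsOpen X) (hXn : X.Nonempty) (hT : ToddPseudocomplete X)
    (N : Subgroup H) [N.Normal] (hN : IsClosed (N : Set H))
    (hc : (𝓝 (1 : H ⧸ N)).IsCountablyGenerated) :
    Function.Surjective fun g : G => (QuotientGroup.mk (ι g) : H ⧸ N) := by
  have hT3 : T3Space (H ⧸ N) := QuotientGroup.instT3Space N (hN := hN)
  have hmet : MetrizableSpace (H ⧸ N) := metrizable_of_countable hc
  obtain ⟨X', hX', rfl⟩ := hι.isInducing.isOpen_iff.mp hX
  set π : H → H ⧸ N := QuotientGroup.mk with hπ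
  have hπc : Continuous π := QuotientGroup.continuous_mk
  have hπo : IsOpenMap π := QuotientGroup.isOpenMap_coe
  set V : Set (H ⧸ N) := π '' X' with hV
  have hVo : IsOpen V := hπo _ hX'
  have hVmem : ∀ x : (ι ⁻¹' X' : Set G), π (ι x) ∈ V := fun x => ⟨ι x, x.2, rfl⟩
  let f : (ι ⁻¹' X' : Set G) → V := fun x => ⟨π (ι x), hVmem x⟩
  have hfc : Continuous f :=
    (hπc.comp (hι.continuous.comp continuous_subtype_val)).subtype_mk _
  let _ : MetricSpace V := metrizableSpaceMetric V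
  have : RegularSpace G := hι.isInducing.regularSpace
  have key : ∀ O : Set H, IsOpen O → O ⊆ X' → ∀ v : V, (v : H ⧸ N) ∈ π '' O →
      v ∈ closure (f '' {x | ι x ∈ O}) := by
    intro O hO hOX v hv
    rw [mem_closure_iff]
    intro W hW hvW
    obtain ⟨W', hW', rfl⟩ := isOpen_induced_iff.mp hW
    obtain ⟨h, hhO, hhv⟩ := hv
    obtain ⟨g, hg⟩ := hd.exists_mem_open (hO.inter (hW'.preimage hπc)) ⟨h, hhO, by
      rw [mem_preimage, hhv]
      exact hvW⟩
    exact ⟨f ⟨g, hOX hg.1⟩, hg.2, ⟨g, hOX hg.1⟩, hg.1, rfl⟩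
  have hdr : DenseRange f := by
    intro v
    have h1 := key X' hX' Subset.rfl v v.2
    exact closure_mono (image_subset_range _ _) h1
  obtain ⟨U, hUo, hUd, hUs⟩ := tree_lemma hT hfc hdr (by
    intro O hO hOn
    obtain ⟨O1, hO1, rfl⟩ := isOpen_induced_iff.mp hO
    obtain ⟨O', hO', rfl⟩ := hι.isInducing.isOpen_iff.mp hO1
    obtain ⟨x, hx⟩ := hOn
    refine ⟨f x, ?_⟩
    rw [mem_interior]
    refine ⟨Subtype.val ⁻¹' (π '' (O' ∩ X')), ?_, ?_, ?_⟩
    · intro v hv
      refine closure_mono ?_ (key (O' ∩ X') (hO'.inter hX') inter_subset_right v hv)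
      exact image_mono fun y hy => hy.1
    · exact (hπo _ (hO'.inter hX')).preimage continuous_subtype_val
    · exact ⟨ι x, ⟨hx, x.2⟩, rfl⟩)
  have htop : ((QuotientGroup.mk' N).comp ι).range = ⊤ := by
    refine subgroup_eq_top _ ?_ hVo ?_ (fun n => Subtype.val '' U n) ?_ ?_ ?_
    · have h1 : DenseRange (π ∘ ι) := (QuotientGroup.mk_surjective.denseRange).comp hd hπc
      intro v
      refine closure_mono ?_ (h1 v)
      rintro _ ⟨g, rfl⟩
      exact ⟨g, rfl⟩
    · obtain ⟨x, hx⟩ := hXn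
      exact ⟨π (ι x), ⟨ι x, hx, rfl⟩⟩
    · exact fun n => hVo.isOpenMap_subtype_val _ (hUo n)
    · intro n v hv
      have h1 := hUd n ⟨v, hv⟩
      have h2 : (⟨v, hv⟩ : V) ∈ closure (U n) := h1
      rw [closure_subtype] at h2
      exact h2
    · rintro v ⟨hv, hv2⟩
      rw [mem_iInter] at hv2
      have h1 : (⟨v, hv⟩ : V) ∈ ⋂ n, U n := by
        rw [mem_iInter]
        intro n
        obtain ⟨w, hw, hwv⟩ := hv2 n
        have : w = ⟨v, hv⟩ := Subtype.ext hwv
        rw [← this]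
        exact hw
      obtain ⟨x, hx⟩ := hUs h1
      exact ⟨(x : G), congrArg Subtype.val hx⟩
  intro v
  have h1 : v ∈ ((QuotientGroup.mk' N).comp ι).range := by
    rw [htop]
    trivial
  obtain ⟨g, hg⟩ := h1
  exact ⟨g, hg⟩

variable [SigmaCompactSpace H]

theorem exists_pseudocompact {ι : G →* H} (hι : IsEmbedding ι) (hd : DenseRange ι)
    {X : Set G} (hX : IsOpen X) (hXn : X.Nonempty) (hT : ToddPseudocomplete X) :
    ∃ V : Set G, IsOpen V ∧ (1 : G) ∈ V ∧ Pseudocompact (closure V) := by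
  obtain ⟨K, hK, hK1⟩ := exists_compact_mem_nhds (1 : H)
  set W : Set H := interior K with hW
  have hWo : IsOpen W := isOpen_interior
  have hW1 : (1 : H) ∈ W := mem_interior_iff_mem_nhds.mpr hK1
  set V : Set G := ι ⁻¹' W with hV
  have hVo : IsOpen V := hWo.preimage hι.continuous
  refine ⟨V, hVo, by rw [hV, mem_preimage, map_one]; exact hW1, ?_⟩
  intro f hf
  by_contra hcon
  push Not at hcon
  have h1 : ∀ n : ℕ, ∃ (E : Set H) (g : G), IsOpen E ∧ E ⊆ W ∧ ι g ∈ E ∧
      ∀ x : G, ι x ∈ E → ∃ h : x ∈ closure V, (n : ℝ) < |f ⟨x, h⟩| := by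
    intro n
    obtain ⟨x, hx⟩ := hcon n
    have ho : IsOpen {y : closure V | (n : ℝ) < |f y|} :=
      isOpen_lt continuous_const hf.abs
    obtain ⟨Q, hQ, hQe⟩ := isOpen_induced_iff.mp ho
    have hxQ : (x : G) ∈ Q := by
      have : x ∈ Subtype.val ⁻¹' Q := by
        rw [hQe]
        exact hx
      exact this
    obtain ⟨g, hgQ, hgV⟩ := mem_closure_iff.mp x.2 Q hQ hxQ
    obtain ⟨E, hE, hEe⟩ := hι.isInducing.isOpen_iff.mp (hQ.inter hVo)
    refine ⟨E ∩ W, g, hE.inter hWo, inter_subset_right, ⟨?_, hgV⟩, ?_⟩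
    · have : g ∈ ι ⁻¹' E := by
        rw [hEe]
        exact ⟨hgQ, hgV⟩
      exact this
    · intro y hy
      have h2 : y ∈ ι ⁻¹' E := hy.1
      rw [hEe] at h2
      refine ⟨subset_closure h2.2, ?_⟩
      have h3 : (⟨y, subset_closure h2.2⟩ : closure V) ∈ (Subtype.val ⁻¹' Q : Set (closure V)) :=
        h2.1
      rw [hQe] at h3
      exact h3
  choose E g hEo hEW hgE hE using h1
  obtain ⟨N, hNn, hNc, hNO, hcount⟩ := kakutani_kodaira (fun n => (fun h => ι (g n) * h) ⁻¹' E n)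
    (fun n => (continuous_const_mul (ι (g n))).continuousAt.preimage_mem_nhds (by
      rw [mul_one]
      exact (hEo n).mem_nhds (hgE n)))
  have hsurj := surj_quotient hι hd hX hXn hT N hNc hcount
  set π : H → H ⧸ N := QuotientGroup.mk with hπ
  have hπc : Continuous π := QuotientGroup.continuous_mk
  have hπo : IsOpenMap π := QuotientGroup.isOpenMap_coe
  have hcpt : IsCompact (π '' K) := hK.image hπc
  obtain ⟨m, hm, hcl⟩ := hcpt.exists_mapClusterPt (f := atTop) (u := fun n => π (ι (g n))) (by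
    rw [le_principal_iff, mem_map]
    filter_upwards with n
    exact ⟨ι (g n), interior_subset (hEW n (hgE n)), rfl⟩)
  obtain ⟨a, ha⟩ := hsurj m
  have ha' : π (ι a) = m := ha
  have hfreq : ∀ Q : Set H, IsOpen Q → ι a ∈ Q → ∃ᶠ n in atTop, (E n ∩ Q).Nonempty := by
    intro Q hQ haQ
    have h2 : π '' Q ∈ 𝓝 m := by
      rw [← ha']
      exact (hπo _ hQ).mem_nhds ⟨ι a, haQ, rfl⟩
    have h3 := mapClusterPt_iff_frequently.mp hcl _ h2
    refine h3.mono ?_
    rintro n ⟨q, hq, hqe⟩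
    refine ⟨q, ?_, hq⟩
    have h4 : (ι (g n))⁻¹ * q ∈ N := by
      rw [← QuotientGroup.eq]
      exact hqe.symm
    have h5 := hNO n h4
    simpa using h5
  have hacl : a ∈ closure V := by
    rw [mem_closure_iff]
    intro Q hQ haQ
    obtain ⟨Q', hQ', rfl⟩ := hι.isInducing.isOpen_iff.mp hQ
    obtain ⟨n, hn⟩ := (hfreq Q' hQ' haQ).exists
    obtain ⟨x, hx⟩ := hd.exists_mem_open ((hEo n).inter hQ') hn
    exact ⟨x, hx.2, hEW n hx.1⟩
  have hcont := (hf.continuousAt (x := (⟨a, hacl⟩ : closure V))).abs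
  have hev : ∀ᶠ y in 𝓝 (⟨a, hacl⟩ : closure V), |f y| < |f ⟨a, hacl⟩| + 1 :=
    hcont.eventually (gt_mem_nhds (by linarith))
  rw [nhds_subtype, eventually_comap] at hev
  obtain ⟨Q, hQsub, hQ, haQ⟩ := _root_.mem_nhds_iff.mp hev
  obtain ⟨Q', hQ', rfl⟩ := hι.isInducing.isOpen_iff.mp hQ
  obtain ⟨n0, hn0⟩ := exists_nat_gt (|f ⟨a, hacl⟩| + 1)
  obtain ⟨n, hn1, hn2⟩ := frequently_atTop.mp (hfreq Q' hQ' haQ) n0
  obtain ⟨x, hx⟩ := hd.exists_mem_open ((hEo n).inter hQ') hn2
  obtain ⟨hxV, hfx⟩ := hE n x hx.1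
  have h6 := hQsub hx.2 ⟨x, hxV⟩ rfl
  have h7 : (n0 : ℝ) ≤ n := by exact_mod_cast hn1
  linarith

end Main

end Pool.Agent.R165.WPC
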